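import Pool.Agent.H366R2.QA.Main5

/-!
The lower growth exponent of the inverse `5x+1` orbit of every integer prime to 5 is at least the
conjectured constant `η₅ = 0.6509186...`.
-/

set_option autoImplicit false

namespace Pool.Agent.Results.MP_02a951_nt.EtaLowerBound

open Pool.Agent.H366R2.QA

/-- There is a real number `η₅` with `0.6509 < η₅ < 0.65095` and `2^η₅ = 1 + 5^(η₅ - 1)` such that,
for every `η < η₅`, the number of the integers `n`, `|n| ≤ x`, whose `5x+1` orbit contains `a` is at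
least `c (x/|a|)^η` for all integers `a` prime to 5 and all real `x ≥ |a|`, with a constant `c > 0`
which depends only on `η`; in particular the lower growth exponent of every such `a` is at least
`η₅`. -/
theorem result :
    ∃ η₅ : ℝ, 0.6509 < η₅ ∧ η₅ < 0.65095 ∧ (2 : ℝ) ^ η₅ = 1 + 5 ^ (η₅ - 1) ∧
      (∀ η : ℝ, η < η₅ → ∃ c : ℝ, 0 < c ∧
        ∀ a : ℤ, ¬ (5 : ℤ) ∣ a → ∀ x : ℝ, |(a : ℝ)| ≤ x →
          c * (x / |(a : ℝ)|) ^ η ≤ ((Set.ncard {n : ℤ | |(n : ℝ)| ≤ x ∧ ∃ k : ℕ,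
            (fun m : ℤ => if m % 2 = 0 then m / 2 else (5 * m + 1) / 2)^[k] n = a} : ℕ) : ℝ)) ∧
      ∀ a : ℤ, ¬ (5 : ℤ) ∣ a →
        η₅ ≤ Filter.liminf (fun x : ℝ =>
          Real.log ((Set.ncard {n : ℤ | |(n : ℝ)| ≤ x ∧ ∃ k : ℕ,
            (fun m : ℤ => if m % 2 = 0 then m / 2 else (5 * m + 1) / 2)^[k] n = a} : ℕ) : ℝ)
            / Real.log x) Filter.atTop := by
  obtain ⟨η₅, h1, h2, h3⟩ := exists_eta
  refine ⟨η₅, h1, h2, h3, fun η hη => five_uniform hmain5 h1 h2 h3 hη, ?_⟩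
  intro a ha
  have ha0 : a ≠ 0 := by rintro rfl; exact ha (dvd_zero _)
  have haR : 0 < |(a : ℝ)| := by
    have : (a : ℝ) ≠ 0 := by exact_mod_cast ha0
    positivity
  refine (le_liminf_of_pow ?_ ?_).2
  · intro x hx
    refine le_trans ?_ (ncard_abs_le (by linarith))
    have hsub : {n : ℤ | |(n : ℝ)| ≤ x ∧ ∃ k : ℕ,
        (fun m : ℤ => if m % 2 = 0 then m / 2 else (5 * m + 1) / 2)^[k] n = a}
        ⊆ {n : ℤ | |(n : ℝ)| ≤ x} := fun n hn => hn.1
    exact_mod_cast Set.ncard_le_ncard hsub (finite_abs_le x)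
  · intro η hη
    obtain ⟨c, hc, h⟩ := five_uniform hmain5 h1 h2 h3 hη
    refine ⟨c / |(a : ℝ)| ^ η, |(a : ℝ)|, by positivity, ?_⟩
    intro x hx
    have h4 := h a ha x hx
    rw [Real.div_rpow (by linarith) haR.le] at h4
    have h5 : c / |(a : ℝ)| ^ η * x ^ η = c * (x ^ η / |(a : ℝ)| ^ η) := by ring
    rw [h5]
    exact h4

end Pool.Agent.Results.MP_02a951_nt.EtaLowerBound
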